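import Pool.Agent.Helper82.BR.St3
import Pool.Agent.Helper42.BR.M_CA

/-! Module E1 for MP_514f88_co (a near copy of module CA). -/

set_option autoImplicit false

namespace Pool.Agent.Helper52.BR

open Pool.Agent.Helper82.BR Pool.Agent.Helper42.BR
open scoped ComplexConjugate

theorem hE1 : StE1 := by
  classical
  intro S w hw hR h0 h7 h4
  have hw1 := nw hw
  have hw' : (1 - w) ^ 2 = (1 - w) - 1 := by linear_combination hw
  have hw1' := nw hw'
  obtain ⟨A, hA⟩ : ∃ A : Finset ℂ, A = S.filter (fun s => ‖s‖ = 1) := ⟨_, rfl⟩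
  obtain ⟨C, hC⟩ : ∃ C : Finset ℂ, C = S.filter (fun s => ¬ ‖s‖ = 1) := ⟨_, rfl⟩
  have mA : ∀ s, s ∈ A ↔ s ∈ S ∧ ‖s‖ = 1 := by
    intro s
    rw [hA, Finset.mem_filter]
  have mC : ∀ s, s ∈ C ↔ s ∈ S ∧ ¬ ‖s‖ = 1 := by
    intro s
    rw [hC, Finset.mem_filter]
  have h4' : 4 ≤ A.card := by
    rw [hA]
    convert h4 using 2
  have hAC : A.card + C.card = S.card := by
    rw [hA, hC]
    exact Finset.card_filter_add_card_filter_not _
  have h0C : (0 : ℂ) ∈ C := by
    rw [mC]
    refine ⟨h0, ?_⟩
    rw [norm_zero]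
    exact zero_ne_one
  have hCe : (C.erase 0).card + 1 = C.card := Finset.card_erase_add_one h0C
  have hsw : (∑ p ∈ A, (S.filter (fun s => dist s 0 = dist s p)).card)
      = ∑ s ∈ S, (A.filter (fun p => dist s 0 = dist s p)).card := by
    simp only [Finset.card_filter]
    exact Finset.sum_comm
  have hlow : 2 * A.card ≤ ∑ p ∈ A, (S.filter (fun s => dist s 0 = dist s p)).card := by
    have : (∑ _p ∈ A, 2) ≤ ∑ p ∈ A, (S.filter (fun s => dist s 0 = dist s p)).card := by
      refine Finset.sum_le_sum fun p hp => ?_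
      have hp' := (mA p).1 hp
      have hp0 : (0 : ℂ) ≠ p := by
        intro h
        rw [← h, norm_zero] at hp'
        exact zero_ne_one hp'.2
      have := hR 0 h0 p hp'.1 hp0
      convert this using 2
    rw [Finset.sum_const, smul_eq_mul] at this
    omega
  have hb1 : ∀ s, ‖s‖ = 1 → (A.filter (fun p => dist s 0 = dist s p)).card
      ≤ (if s * w ∈ S then 1 else 0) + (if s * (1 - w) ∈ S then 1 else 0) := by
    intro s hs
    have hk : ∀ p ∈ A.filter (fun p => dist s 0 = dist s p),
        p ∈ S ∧ (p = s * w ∨ p = s * (1 - w)) := by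
      intro p hp
      rw [Finset.mem_filter, mA] at hp
      exact ⟨hp.1.1, key1 hw hs hp.1.2 hp.2⟩
    have hsub : A.filter (fun p => dist s 0 = dist s p)
        ⊆ (if s * w ∈ S then {s * w} else ∅) ∪ (if s * (1 - w) ∈ S then {s * (1 - w)} else ∅) := by
      intro p hp
      obtain ⟨h1, h2⟩ := hk p hp
      rw [Finset.mem_union]
      rcases h2 with h2 | h2
      · left
        rw [← h2, if_pos h1]
        exact Finset.mem_singleton_self _
      · right
        rw [← h2, if_pos h1]
        exact Finset.mem_singleton_self _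
    refine (Finset.card_le_card hsub).trans ((Finset.card_union_le _ _).trans ?_)
    refine add_le_add ?_ ?_
    · split_ifs
      · exact (Finset.card_singleton _).le
      · exact (Finset.card_empty).le
    · split_ifs
      · exact (Finset.card_singleton _).le
      · exact (Finset.card_empty).le
  have hup : (∑ s ∈ S, (A.filter (fun p => dist s 0 = dist s p)).card)
      ≤ ∑ s ∈ S, (if ‖s‖ = 1 then ((if s * w ∈ S then 1 else 0)
        + (if s * (1 - w) ∈ S then 1 else 0)) else (if s = 0 then 0 else 2)) := by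
    refine Finset.sum_le_sum fun s _ => ?_
    by_cases hs : ‖s‖ = 1
    · rw [if_pos hs]
      exact hb1 s hs
    · rw [if_neg hs]
      by_cases hs0 : s = 0
      · rw [if_pos hs0, hs0]
        refine le_of_eq (Finset.card_eq_zero.2 (Finset.filter_eq_empty_iff.2 ?_))
        intro p hp h
        rw [dist_self, dist_zero_left, ((mA p).1 hp).2] at h
        exact zero_ne_one h
      · rw [if_neg hs0]
        refine key2 hs0 _ fun p hp => ?_
        rw [Finset.mem_filter, mA] at hp
        exact ⟨hp.1.2, hp.2⟩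
  have hsplit : (∑ s ∈ S, (if ‖s‖ = 1 then ((if s * w ∈ S then 1 else 0)
        + (if s * (1 - w) ∈ S then 1 else 0)) else (if s = 0 then 0 else 2)))
      = (A.filter (fun s => s * w ∈ S)).card + (A.filter (fun s => s * (1 - w) ∈ S)).card
        + 2 * (C.erase 0).card := by
    have hg : (∑ s ∈ C, (if s = 0 then 0 else 2)) = 2 * (C.erase 0).card := by
      have h5 := Finset.add_sum_erase C (fun s : ℂ => if s = 0 then (0 : ℕ) else 2) h0C
      have h6 : (∑ s ∈ C.erase 0, (if s = 0 then (0 : ℕ) else 2)) = ∑ _s ∈ C.erase 0, 2 := by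
        refine Finset.sum_congr rfl fun s hs => ?_
        rw [if_neg (Finset.ne_of_mem_erase hs)]
      rw [h6, Finset.sum_const, smul_eq_mul, if_pos rfl, zero_add] at h5
      rw [← h5, mul_comm]
    rw [Finset.sum_ite, ← hA, ← hC, hg, Finset.sum_add_distrib, Finset.card_filter,
      Finset.card_filter]
  have hEE : (A.filter (fun s => s * (1 - w) ∈ S)).card ≤ (A.filter (fun s => s * w ∈ S)).card := by
    refine Finset.card_le_card_of_injOn (fun s => s * (1 - w)) ?_ ?_
    · intro s hs
      have hs' := Finset.mem_filter.1 (Finset.mem_coe.1 hs)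
      have hs1 := (mA s).1 hs'.1
      refine Finset.mem_coe.2 (Finset.mem_filter.2 ⟨(mA _).2 ⟨hs'.2, ?_⟩, ?_⟩)
      · rw [norm_mul, hs1.2, hw1', mul_one]
      · have : s * (1 - w) * w = s := by linear_combination (-s) * hw
        show s * (1 - w) * w ∈ S
        rw [this]
        exact hs1.1
    · intro s _ s' _ h
      have hne : (1 - w) ≠ 0 := by
        intro h
        rw [h, norm_zero] at hw1'
        exact zero_ne_one hw1'
      exact mul_right_cancel₀ hne h
  have hE : 0 < (A.filter (fun s => s * w ∈ S)).card := by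
    rw [hsw] at hlow
    rw [hsplit] at hup
    omega
  obtain ⟨p, hp⟩ := Finset.card_pos.1 hE
  rw [Finset.mem_filter, mA] at hp
  exact ⟨p, hp.1.1, hp.1.2, hp.2⟩

end Pool.Agent.Helper52.BR
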