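import Pool.Agent.Helper82.BR.St4

/-! Module KT for MP_514f88_co: Kelly's sets in the plane. -/

set_option autoImplicit false

namespace Pool.Agent.Helper52.BR

open Pool.Agent.Helper82.BR

private theorem rp {z : ℂ} {x y : ℝ} (hx : z.re = x) (hy : z.im = y) :
    Complex.orthonormalBasisOneI.repr z = !₂[x, y] := by
  subst hx hy
  ext i
  fin_cases i <;> simp [Complex.orthonormalBasisOneI_repr_apply]

private theorem kel (h : ℝ) :
    kelly h = Complex.orthonormalBasisOneI.repr '' ((KC h : Finset ℂ) : Set ℂ) := by
  unfold kelly KC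
  simp only [Finset.coe_insert, Finset.coe_singleton, Set.image_insert_eq, Set.image_singleton]
  rw [rp (z := 1 + Complex.I) (x := 1) (y := 1) (by simp) (by simp),
    rp (z := -1 + Complex.I) (x := -1) (y := 1) (by simp) (by simp),
    rp (z := 1 - Complex.I) (x := 1) (y := -1) (by simp) (by simp),
    rp (z := -1 - Complex.I) (x := -1) (y := -1) (by simp) (by simp),
    rp (z := (h : ℂ)) (x := h) (y := 0) (by simp) (by simp),
    rp (z := -(h : ℂ)) (x := -h) (y := 0) (by simp) (by simp),
    rp (z := (h : ℂ) * Complex.I) (x := 0) (y := h) (by simp) (by simp),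
    rp (z := -((h : ℂ) * Complex.I)) (x := 0) (y := -h) (by simp) (by simp)]

theorem hKT : StKT := by
  classical
  intro h hR hc
  rw [kel h]
  have hinj : Function.Injective Complex.orthonormalBasisOneI.repr :=
    Complex.orthonormalBasisOneI.repr.injective
  have hfin : (Complex.orthonormalBasisOneI.repr '' ((KC h : Finset ℂ) : Set ℂ)).Finite :=
    (KC h).finite_toSet.image _
  have hcard : (Complex.orthonormalBasisOneI.repr '' ((KC h : Finset ℂ) : Set ℂ)).ncard =
      (KC h).card := by
    rw [Set.ncard_image_of_injective _ hinj, Set.ncard_coe_finset]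
  refine ⟨hfin, ?_, ?_⟩
  · rw [hcard, hc]
    norm_num
  · rintro _ ⟨a, ha, rfl⟩ _ ⟨b, hb, rfl⟩ hab
    have h1 := hR a ha b hb (fun h => hab (by rw [h]))
    have h2 : (Complex.orthonormalBasisOneI.repr ''
        (((KC h).filter (fun s => dist s a = dist s b) : Finset ℂ) : Set ℂ)).ncard =
        ((KC h).filter (fun s => dist s a = dist s b)).card := by
      rw [Set.ncard_image_of_injective _ hinj, Set.ncard_coe_finset]
    have h3 : 2 ≤ ((KC h).filter (fun s => dist s a = dist s b)).card := by
      convert h1 using 2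
    rw [← h2] at h3
    refine h3.trans (Set.ncard_le_ncard ?_ (hfin.subset Set.inter_subset_right))
    rintro _ ⟨s, hs, rfl⟩
    rw [Finset.mem_coe, Finset.mem_filter] at hs
    refine ⟨?_, ⟨s, hs.1, rfl⟩⟩
    rw [SetLike.mem_coe, AffineSubspace.mem_perpBisector_iff_dist_eq,
      LinearIsometryEquiv.dist_map, LinearIsometryEquiv.dist_map]
    exact hs.2

end Pool.Agent.Helper52.BR
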